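import Pool.Agent.H15.Cut

set_option autoImplicit false

namespace Pool.Agent.Results.MP_1e9518_pr.NoSepCutoff

open Finset Filter Topology Matrix

noncomputable section

section
variable {V : Type} [Fintype V] [DecidableEq V] (G : SimpleGraph V) [DecidableRel G.Adj]

/-- Transition matrix of the lazy simple random walk on `G`. -/
def P : Matrix V V ℝ := fun x y =>
  (if x = y then 1 / 2 else 0) + (if G.Adj x y then 1 / (2 * (G.degree x : ℝ)) else 0)

/-- Total variation distance to the uniform distribution at time `t`. -/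
def d (t : ℕ) : ℝ := ⨆ x : V, (1 / 2) * ∑ y, |(P G ^ t) x y - 1 / (Fintype.card V : ℝ)|

def Tmix (ε : ℝ) : ℕ := sInf {t | d G t ≤ ε}

/-- Separation distance at time `t`. -/
def s (t : ℕ) : ℝ := ⨆ z : V × V, (1 - (P G ^ t) z.1 z.2 / (1 / (Fintype.card V : ℝ)))

def Tsep (ε : ℝ) : ℕ := sInf {t | s G t ≤ ε}

/-- The largest eigenvalue of `P` other than the (simple) eigenvalue `1`. -/
def lam2 : ℝ := sSup {l : ℝ | l ≠ 1 ∧ ∃ f : V → ℝ, f ≠ 0 ∧ P G *ᵥ f = l • f}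

def Trel : ℝ := 1 / (1 - lam2 G)
end

open MP_8d2225_pr H15.Cut

lemma sq {V : Type} [Fintype V] [Nonempty V] {f g : V → ℝ} (f0 : ∀ y, 0 ≤ f y) (g0 : ∀ y, 0 ≤ g y)
    (f1 : ∑ y, f y = 1) (g1 : ∑ y, g y = 1) {D : ℝ} (hD : D ≤ 1 / 2)
    (hf : 1 / 2 * ∑ y, |f y - 1 / (Fintype.card V : ℝ)| ≤ D)
    (hg : 1 / 2 * ∑ y, |g y - 1 / (Fintype.card V : ℝ)| ≤ D) :
    1 - (∑ y, f y * g y) / (1 / (Fintype.card V : ℝ)) ≤ 4 * D - 4 * D ^ 2 := by
  set c : ℝ := 1 / Fintype.card V with hc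
  have sc : ∑ _y : V, c = 1 := by
    simp only [c, sum_const, card_univ, nsmul_eq_mul]
    exact mul_one_div_cancel (by positivity)
  have a : ∑ y, ((f y + g y) / 2 - |f y - c| / 2 - |g y - c| / 2) ≤ ∑ y, min (f y) (g y) :=
    sum_le_sum fun y _ => le_min
      (by linarith [neg_le_abs (f y - c), le_abs_self (g y - c)])
      (by linarith [neg_le_abs (g y - c), le_abs_self (f y - c)])
  simp only [sum_sub_distrib, ← sum_div, sum_add_distrib, f1, g1] at a
  have b := sq_sum_le_card_mul_sum_sq (s := univ) (f := fun y => min (f y) (g y))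
  have e : ∑ y, min (f y) (g y) ^ 2 ≤ ∑ y, f y * g y := sum_le_sum fun y _ => by
    rw [pow_two]
    exact mul_le_mul (min_le_left _ _) (min_le_right _ _) (le_min (f0 y) (g0 y)) (f0 y)
  have h : (1 - 2 * D) ^ 2 ≤ (∑ y, min (f y) (g y)) ^ 2 :=
    pow_le_pow_left₀ (by linarith) (by linarith) 2
  rw [hc, div_div_eq_mul_div, div_one]
  rw [card_univ] at b
  nlinarith [mul_le_mul_of_nonneg_left e (Nat.cast_nonneg (α := ℝ) (Fintype.card V))]

variable {p k r : ℕ} [Fact p.Prime] [NeZero r]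

abbrev Γ (p k r : ℕ) [Fact p.Prime] [NeZero r] : SimpleGraph (NoCutoff.GG p k r) :=
  cay (S := NoCutoff.SS p k r) NoCutoff.zero_nm NoCutoff.SS_neg

lemma eP : P (Γ p k r) = NoCutoff.P (NoCutoff.SS p k r) := by
  ext x y
  rw [P, cay_deg]
  rfl

lemma ed (t : ℕ) : d (Γ p k r) t = NoCutoff.d (NoCutoff.SS p k r) t := by rw [d, eP]; rfl

lemma s_up (t : ℕ) {D : ℝ} (h : d (Γ p k r) t ≤ D) (hD : D ≤ 1 / 2) :
    s (Γ p k r) (t + t) ≤ 4 * D - 4 * D ^ 2 := by
  refine ciSup_le fun z => ?_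
  have a := fun x => (le_ciSup (Finite.bddAbove_range _) x).trans h
  rw [pow_add, mul_apply]
  simp only [eP] at a ⊢
  simp only [P_symm NoCutoff.SS_neg t _ z.2]
  exact sq (P_nonneg _ _) (P_nonneg _ _) (P_sum NoCutoff.SS_neg NoCutoff.SS_ne _ _)
    (P_sum NoCutoff.SS_neg NoCutoff.SS_ne _ _) hD (a _) (a _)

lemma d_low (t : ℕ) (h : 2 * t ≤ k) :
    (1 - 1 / (2 * r) : ℝ) ^ t - 1 / (p : ℝ) ^ 2 ≤ d (Γ p k r) t := by
  refine le_trans ?_ (le_ciSup (Finite.bddAbove_range _) 0)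
  rw [eP]
  linarith [mass (p := p) (k := k) (r := r) t t le_rfl, small (p := p) (r := r) t h,
    tv_ge (P_sum (NoCutoff.SS_neg (p := p) (k := k) (r := r)) NoCutoff.SS_ne t 0)
      (NoCutoff.R p k t ×ˢ univ)]

lemma d_le_s (t : ℕ) : d (Γ p k r) t ≤ s (Γ p k r) t := by
  refine ciSup_le fun x => ?_
  have a := fun y => le_ciSup (f := fun z : _ × _ => 1 - (P (Γ p k r) ^ t) z.1 z.2 /
    (1 / (Fintype.card (NoCutoff.GG p k r) : ℝ))) (Finite.bddAbove_range _) (x, y)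
  change ∀ y, _ ≤ s (Γ p k r) t at a
  have b := P_sum (NoCutoff.SS_neg (p := p) (k := k) (r := r)) NoCutoff.SS_ne t x
  rw [← eP] at b
  generalize s (Γ p k r) t = D at a ⊢
  set c : ℝ := 1 / Fintype.card (NoCutoff.GG p k r) with hc
  have c0 : 0 < c := by positivity
  have sc : ∑ _y : NoCutoff.GG p k r, c = 1 := by
    simp only [c, sum_const, card_univ, nsmul_eq_mul]
    exact mul_one_div_cancel (by positivity)
  have a' : ∀ y, c - (P (Γ p k r) ^ t) x y ≤ c * D := fun y => by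
    have := mul_le_mul_of_nonneg_left (a y) c0.le
    rwa [mul_sub, mul_one, mul_div_cancel₀ _ c0.ne'] at this
  have D0 : 0 ≤ D := by
    have := sum_le_sum fun y (_ : y ∈ univ) => a' y
    rwa [sum_sub_distrib, ← sum_mul, sc, b, sub_self, one_mul] at this
  have := sum_le_sum (s := univ) (f := fun y => |(P (Γ p k r) ^ t) x y - c|)
    (g := fun y => (P (Γ p k r) ^ t) x y - c + 2 * (c * D)) fun y _ =>
      abs_le.2 ⟨by linarith [a' y], by nlinarith⟩
  rw [sum_add_distrib, sum_sub_distrib, ← mul_sum, ← sum_mul, sc, b] at this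
  linarith

lemma times (hr : 6 ≤ r) (hk : k = 16 * r) (hp : 100 ≤ p) :
    r < Tmix (Γ p k r) (1 / 4) ∧ 8 * r < Tsep (Γ p k r) (1 / 1000) ∧
      0 < Tsep (Γ p k r) (1 - 1 / 1000) ∧ Tsep (Γ p k r) (1 - 1 / 1000) ≤ 7 * r := by
  have r0 : (6 : ℝ) ≤ r := by exact_mod_cast hr
  have p0 : 1 / (p : ℝ) ^ 2 ≤ 1 / 100 ^ 2 := by gcongr; exact_mod_cast hp
  have b0 : (0 : ℝ) < 1 / (2 * (r + 1)) := by positivity
  have b1 : (1 : ℝ) / (2 * (r + 1)) < 1 := by rw [div_lt_one (by positivity)]; linarith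
  have c0 : (0 : ℝ) < 1 / (2 * r) := by positivity
  have c1 : (1 : ℝ) / (2 * r) < 1 := by rw [div_lt_one (by positivity)]; linarith
  have u : d (Γ p k r) (3 * (r + 1)) ≤ 9 / 20 := by
    refine (ed _).le.trans ((NoCutoff.upper _).trans ?_)
    have a1 : (1 - 1 / 4 : ℝ) ^ (3 * (r + 1)) ≤ (1 - 1 / 4) ^ 12 :=
      pow_le_pow_of_le_one (by norm_num) (by norm_num) (by omega)
    have a2 := one_add_mul_le_pow (a := 1 / (2 * ((r : ℝ) + 1))) (by linarith) (3 * (r + 1))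
    have a3 : ((3 * (r + 1) : ℕ) : ℝ) * (1 / (2 * (r + 1))) = 3 / 2 := by
      push_cast; field_simp
    have a4 : (1 + 1 / (2 * ((r : ℝ) + 1))) ^ (3 * (r + 1)) *
        (1 - 1 / (2 * (r + 1))) ^ (3 * (r + 1)) ≤ 1 := by
      rw [← mul_pow]; exact pow_le_one₀ (by nlinarith) (by nlinarith)
    have a5 : 0 ≤ (1 - 1 / (2 * ((r : ℝ) + 1))) ^ (3 * (r + 1)) := pow_nonneg (by linarith) _
    rw [a3] at a2
    nlinarith [mul_le_mul_of_nonneg_right a2 a5]
  have u' : s (Γ p k r) (3 * (r + 1) + 3 * (r + 1)) ≤ 1 - 1 / 1000 :=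
    (s_up _ u (by norm_num)).trans (by norm_num)
  obtain ⟨t, ht⟩ : ∃ t, d (Γ p k r) t ≤ 1 / 4000 := by
    have := (tendsto_pow_atTop_nhds_zero_of_lt_one (r := 1 - 1 / (2 * ((r : ℝ) + 1))) (by linarith)
      (by linarith)).add (tendsto_pow_atTop_nhds_zero_of_lt_one (r := (1 - 1 / 4 : ℝ)) (by norm_num)
      (by norm_num))
    obtain ⟨t, ht⟩ := (this.eventually (ge_mem_nhds (by norm_num : (0 + 0 : ℝ) < 1 / 4000))).exists
    exact ⟨t, (ed _).le.trans ((NoCutoff.upper t).trans ht)⟩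
  have h1 : (1 / 2 : ℝ) ≤ (1 - 1 / (2 * r)) ^ r := by
    have := one_add_mul_le_pow (a := -(1 / (2 * (r : ℝ)))) (by linarith) r
    rw [← sub_eq_add_neg, show (r : ℝ) * -(1 / (2 * r)) = -(1 / 2) by field_simp] at this
    linarith
  have low : ∀ j t, t ≤ r * j → j ≤ 8 → (1 / 2 : ℝ) ^ j - 1 / 100 ^ 2 ≤ d (Γ p k r) t := by
    intro j t h hj
    have a := d_low (p := p) (k := k) (r := r) t (by nlinarith)
    have b : (1 - 1 / (2 * r) : ℝ) ^ (r * j) ≤ (1 - 1 / (2 * r)) ^ t :=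
      pow_le_pow_of_le_one (by linarith) (by linarith) h
    have c := pow_le_pow_left₀ (by norm_num) h1 j
    rw [← pow_mul] at c
    linarith
  refine ⟨lt_of_not_ge fun h => ?_, lt_of_not_ge fun h => ?_, Nat.pos_of_ne_zero fun h => ?_,
    (Nat.sInf_le u').trans (by omega)⟩
  · have a1 : d (Γ p k r) (Tmix (Γ p k r) (1 / 4)) ≤ 1 / 4 :=
      Nat.sInf_mem (s := {t | d (Γ p k r) t ≤ 1 / 4}) ⟨t, ht.trans (by norm_num)⟩
    linarith [low 1 _ (by omega : Tmix (Γ p k r) (1 / 4) ≤ r * 1) (by omega)]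
  · have a1 : s (Γ p k r) (Tsep (Γ p k r) (1 / 1000)) ≤ 1 / 1000 :=
      Nat.sInf_mem (s := {t | s (Γ p k r) t ≤ 1 / 1000})
        ⟨_, (s_up _ ht (by norm_num)).trans (by norm_num)⟩
    linarith [low 8 _ (by omega : Tsep (Γ p k r) (1 / 1000) ≤ r * 8) (by omega),
      d_le_s (p := p) (k := k) (r := r) (Tsep (Γ p k r) (1 / 1000))]
  · have a1 : s (Γ p k r) (Tsep (Γ p k r) (1 - 1 / 1000)) ≤ 1 - 1 / 1000 :=
      Nat.sInf_mem (s := {t | s (Γ p k r) t ≤ 1 - 1 / 1000}) ⟨_, u'⟩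
    rw [h] at a1
    linarith [low 0 0 le_rfl (by omega), d_le_s (p := p) (k := k) (r := r) 0]

/-- Connected vertex-transitive graphs whose lazy simple random walks satisfy the product
condition but have no separation cutoff. -/
theorem result : ∃ (V : ℕ → Type) (_ : ∀ n, Fintype (V n)) (_ : ∀ n, DecidableEq (V n))
    (G : ∀ n, SimpleGraph (V n)) (_ : ∀ n, DecidableRel (G n).Adj),
    (∀ n, (G n).Connected ∧ ∀ x y, ∃ φ : G n ≃g G n, φ x = y) ∧
    Tendsto (fun n => Fintype.card (V n)) atTop atTop ∧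
    Tendsto (fun n => (Tmix (G n) (1 / 4) : ℝ) / Trel (G n)) atTop atTop ∧
    ¬ ∀ ε : ℝ, 0 < ε → ε < 1 / 2 →
      Tendsto (fun n => (Tsep (G n) ε : ℝ) / Tsep (G n) (1 - ε)) atTop (𝓝 1) := by
  choose p hp pr using fun n : ℕ => Nat.exists_infinite_primes (4 * (16 * (n + 6) + 2))
  haveI : ∀ n, Fact (p n).Prime := fun n => ⟨pr n⟩
  haveI : ∀ n : ℕ, NeZero (n + 6) := fun n => ⟨by omega⟩
  have T := fun n => times (p := p n) (k := 16 * (n + 6)) (r := n + 6) (by omega) rfl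
    (by have := hp n; omega)
  refine ⟨_, inferInstance, inferInstance, fun n => Γ (p n) (16 * (n + 6)) (n + 6), inferInstance,
    fun n => ⟨cay_conn _ _ NoCutoff.SS_gen, cay_trans _ _⟩, ?_, ?_, fun h => ?_⟩
  · exact tendsto_atTop_mono (fun n => le_trans (by dsimp; omega) card_ge) tendsto_id
  · refine tendsto_atTop_mono (fun n => ?_)
      (tendsto_natCast_atTop_atTop.const_mul_atTop (by norm_num : (0 : ℝ) < 1 / 8))
    have a : lam2 (Γ (p n) (16 * (n + 6)) (n + 6)) ≤ 1 - 1 / 8 := by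
      rw [lam2, eP]
      exact NoCutoff.gap (hp n)
    have b : (n : ℝ) ≤ Tmix (Γ (p n) (16 * (n + 6)) (n + 6)) (1 / 4) := by
      exact_mod_cast (by have := (T n).1; omega)
    rw [Trel, div_div_eq_mul_div, div_one, mul_comm]
    exact mul_le_mul b (by linarith) (by norm_num) (by positivity)
  · refine absurd (ge_of_tendsto' (b := 8 / 7) (h (1 / 1000) (by norm_num) (by norm_num))
      fun n => ?_) (by norm_num)
    obtain ⟨-, a, b, c⟩ := T n
    beta_reduce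
    rw [le_div_iff₀ (by exact_mod_cast b), div_mul_eq_mul_div, div_le_iff₀ (by norm_num)]
    exact_mod_cast (by omega)

end

end Pool.Agent.Results.MP_1e9518_pr.NoSepCutoff
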